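import Pool.Agent.H621.ZM.Full
import Pool.Agent.H621.ZM.Formula

/-!
# MP_22c8d1_co: zero-sum Turán numbers of matchings

For all `s ≥ 1` and all `n` the two Turán numbers `T(n, s K_2, 2)` and `T(n, s K_2, ZMod s)` are equal,
and their common value is `C(n, 2)` for `n ≤ 3 s - 2` and
`max (C(3s-2, 2) + (s-1)(n-3s+2)) (C(2s-2, 2) + (2s-2)(n-2s+2))` for `n ≥ 3 s - 2`.
-/

set_option autoImplicit false

namespace Pool.Agent.Results.MP_22c8d1_co.ExactValue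

/-- `T(n, s K_2, 2)`: the largest number of edges of a graph on `n` vertices with a 2-edge-colouring
without monochromatic `s K_2` -/
noncomputable def T2 (n s : ℕ) : ℕ :=
  sSup {k : ℕ | ∃ G : SimpleGraph (Fin n), G.edgeSet.ncard = k ∧
      ∃ c : Sym2 (Fin n) → Bool, ∀ F : Finset (Sym2 (Fin n)),
        (↑F : Set (Sym2 (Fin n))) ⊆ G.edgeSet → F.card = s →
        (∀ e ∈ F, ∀ f ∈ F, e ≠ f → ∀ v ∈ e, v ∉ f) →
        ¬ ∃ b : Bool, ∀ e ∈ F, c e = b}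

/-- `T(n, s K_2, ZMod s)`: the largest number of edges of a graph on `n` vertices with a
`ZMod s`-edge-colouring without zero-sum `s K_2` -/
noncomputable def TZ (n s : ℕ) : ℕ :=
  sSup {k : ℕ | ∃ G : SimpleGraph (Fin n), G.edgeSet.ncard = k ∧
      ∃ c : Sym2 (Fin n) → ZMod s, ∀ F : Finset (Sym2 (Fin n)),
        (↑F : Set (Sym2 (Fin n))) ⊆ G.edgeSet → F.card = s →
        (∀ e ∈ F, ∀ f ∈ F, e ≠ f → ∀ v ∈ e, v ∉ f) →
        ∑ e ∈ F, c e ≠ 0}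

theorem result :
    (∀ s n : ℕ, 1 ≤ s → T2 n s = TZ n s) ∧
    (∀ s n : ℕ, 1 ≤ s → n + 2 ≤ 3 * s → T2 n s = n.choose 2) ∧
    (∀ s n : ℕ, 1 ≤ s → 3 * s ≤ n + 2 →
      T2 n s = max ((3 * s - 2).choose 2 + (s - 1) * (n - (3 * s - 2)))
        ((2 * s - 2).choose 2 + (2 * s - 2) * (n - (2 * s - 2)))) := by
  refine ⟨fun s n hs => Pool.Agent.H621.ZM.FullSol.T2_eq_TZ n s hs,
    fun s n hs hn => Pool.Agent.H621.ZM.Formula.small_value n s hs hn, ?_⟩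
  intro s n hs hn
  obtain ⟨r, hr⟩ : ∃ r, n + 2 = 3 * s + r := ⟨n + 2 - 3 * s, by omega⟩
  exact Pool.Agent.H621.ZM.Formula.value _ n s r hs hr
    (Pool.Agent.H621.ZM.Values.T2_eq Pool.Agent.H621.ZM.TwoCol.twoCol
      Pool.Agent.H621.ZM.Constr.constr n s r hs hr)

end Pool.Agent.Results.MP_22c8d1_co.ExactValue
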